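import Pool.Agent.helper56.P3.ClDefs

/-!
# P3-CL4a (helper86): the field of germs is algebraically closed, transfer of cycles
-/

namespace Pool.Agent.helper56.P3

open Finset Filter Pool.Agent.helper56.Per

theorem cls_surj (x : KK) : ∃ f : ℕ → ℂ, cls f = x := by
  induction x using Germ.inductionOn with
  | _ f => exact ⟨f, rfl⟩

theorem cls_eq_iff {x y : ℕ → ℂ} :
    cls x = cls y ↔ ∀ᶠ j in ((hyperfilter ℕ : Ultrafilter ℕ) : Filter ℕ), x j = y j := by
  exact Germ.coe_eq

theorem cls_ne_iff {x y : ℕ → ℂ} :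
    cls x ≠ cls y ↔ ∀ᶠ j in ((hyperfilter ℕ : Ultrafilter ℕ) : Filter ℕ), x j ≠ y j := by
  rw [Ne, cls_eq_iff]
  exact (Ultrafilter.eventually_not).symm

theorem isAlgClosed_KK : IsAlgClosed KK := by
  apply IsAlgClosed.of_exists_root
  intro p hm hirr
  have hd : 0 < p.natDegree := hirr.natDegree_pos
  choose c hc using fun i => cls_surj (p.coeff i)
  have hroot : ∀ j, ∃ r : ℂ, ∑ i ∈ range p.natDegree, c i j * r ^ i + r ^ p.natDegree = 0 := by
    intro j
    set q : Polynomial ℂ := ∑ i ∈ range p.natDegree, Polynomial.C (c i j) * Polynomial.X ^ i with hq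
    have hqd : q.degree < (p.natDegree : WithBot ℕ) := by
      rw [hq]
      refine lt_of_le_of_lt (Polynomial.degree_sum_le _ _) ?_
      rw [Finset.sup_lt_iff (WithBot.bot_lt_coe _)]
      intro i hi
      refine lt_of_le_of_lt (Polynomial.degree_C_mul_X_pow_le _ _) ?_
      exact_mod_cast Finset.mem_range.1 hi
    have hmon : (Polynomial.X ^ p.natDegree + q).Monic := Polynomial.monic_X_pow_add hqd
    have hdeg : (Polynomial.X ^ p.natDegree + q).degree ≠ 0 := by
      have h1 : (Polynomial.X ^ p.natDegree + q).degree = (p.natDegree : WithBot ℕ) := by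
        rw [Polynomial.degree_add_eq_left_of_degree_lt, Polynomial.degree_X_pow]
        rw [Polynomial.degree_X_pow]
        exact hqd
      rw [h1]
      exact_mod_cast hd.ne'
    obtain ⟨r, hr⟩ := IsAlgClosed.exists_root _ hdeg
    refine ⟨r, ?_⟩
    have h2 : (Polynomial.X ^ p.natDegree + q).eval r = 0 := hr
    rw [hq, Polynomial.eval_add, Polynomial.eval_finsetSum] at h2
    simp only [Polynomial.eval_mul, Polynomial.eval_C, Polynomial.eval_pow,
      Polynomial.eval_X] at h2
    rw [add_comm]
    exact h2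
  choose r hr using hroot
  refine ⟨cls r, ?_⟩
  have e : ∑ i ∈ range p.natDegree, c i * r ^ i + r ^ p.natDegree = 0 := by
    funext j
    rw [Pi.add_apply, Finset.sum_apply]
    exact hr j
  have h1 := congrArg cls e
  rw [map_add, map_sum, map_zero] at h1
  simp only [map_mul, map_pow, hc] at h1
  rw [Polynomial.eval_eq_sum_range, Finset.sum_range_succ, hm.coeff_natDegree, one_mul]
  exact h1

/-- transfer back from germs to sequences -/
theorem QC.of_cls {n : ℕ} {lam : ℂ} {a b : ℕ → ℂ}
    (h : QC n (algebraMap ℂ KK lam) (cls a) (cls b)) : ∃ j, QC n lam (a j) (b j) := by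
  obtain ⟨z, hz, hx⟩ := h
  have hn : 0 < n := hz.npos
  choose y hy using fun i => cls_surj (z i)
  set w : ℕ → ℕ → ℂ := fun i => y (i % n) with hw
  have hper : ∀ i, z (i % n) = z i := fun i => Function.Periodic.map_mod_nat (f := z) hz.per i
  have hwz : ∀ i, cls (w i) = z i := fun i => by rw [hw]; simp only; rw [hy, hper]
  have hwmod : ∀ i, w (i % n) = w i := fun i => by simp only [hw, Nat.mod_mod]
  have hwmod' : ∀ i, w (i % n + 1) = w (i + 1) := fun i => by
    simp only [hw]
    rw [Nat.mod_add_mod]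
  have c1 : ∀ i, ∀ᶠ j in ((hyperfilter ℕ : Ultrafilter ℕ) : Filter ℕ), w i j ≠ 0 := by
    intro i
    have := hz.ne0 i
    rw [← hwz i, ← map_zero cls] at this
    exact cls_ne_iff.1 this
  have c2 : ∀ i, ∀ᶠ j in ((hyperfilter ℕ : Ultrafilter ℕ) : Filter ℕ), b j * w i j + 1 ≠ 0 := by
    intro i
    have := hz.den i
    rw [← hwz i, ← map_mul, ← map_one cls, ← map_add, ← map_zero cls] at this
    exact cls_ne_iff.1 this
  have c3 : ∀ i, ∀ᶠ j in ((hyperfilter ℕ : Ultrafilter ℕ) : Filter ℕ),
      w (i + 1) j * (b j * w i j + 1) = w i j * (w i j + a j) := by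
    intro i
    have := hz.step i
    rw [← hwz i, ← hwz (i + 1), ← map_one cls] at this
    simp only [← map_mul, ← map_add] at this
    exact cls_eq_iff.1 this
  have c4 : ∀ i, ∀ᶠ j in ((hyperfilter ℕ : Ultrafilter ℕ) : Filter ℕ), w (i + 1) j ≠ w i j := by
    intro i
    have := hz.ne i
    rw [← hwz i, ← hwz (i + 1)] at this
    exact cls_ne_iff.1 this
  have c5 : ∀ᶠ j in ((hyperfilter ℕ : Ultrafilter ℕ) : Filter ℕ),
      ∏ i ∈ range n, (b j * w i j ^ 2 + 2 * w i j + a j) =
        lam * ∏ i ∈ range n, (b j * w i j + 1) ^ 2 := by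
    have h1 := hz.mul
    simp only [← hwz] at h1
    rw [algebraMap_KK, ← cls_const, ← map_one cls, ← map_ofNat cls 2] at h1
    simp only [← map_mul, ← map_add, ← map_pow, ← map_prod] at h1
    filter_upwards [cls_eq_iff.1 h1] with j hj
    rw [Pi.mul_apply, Finset.prod_apply, Finset.prod_apply] at hj
    exact hj
  have c6 : ∀ i i', i < n → i' < n → ∀ᶠ j in ((hyperfilter ℕ : Ultrafilter ℕ) : Filter ℕ),
      w i j = w i' j → i = i' := by
    intro i i' hi hi'
    by_cases hii : i = i'
    · exact Eventually.of_forall fun _ _ => hii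
    · have : z i ≠ z i' := by
        intro h0
        have := hx i i' h0
        rw [Nat.mod_eq_of_lt hi, Nat.mod_eq_of_lt hi'] at this
        exact hii this
      rw [← hwz i, ← hwz i'] at this
      filter_upwards [cls_ne_iff.1 this] with j hj h0
      exact absurd h0 hj
  have d1 := (eventually_all_finset (range n)).2 fun i _ => c1 i
  have d2 := (eventually_all_finset (range n)).2 fun i _ => c2 i
  have d3 := (eventually_all_finset (range n)).2 fun i _ => c3 i
  have d4 := (eventually_all_finset (range n)).2 fun i _ => c4 i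
  have d6 := (eventually_all_finset (range n)).2 fun i hi =>
    (eventually_all_finset (range n)).2 fun i' hi' =>
      c6 i i' (Finset.mem_range.1 hi) (Finset.mem_range.1 hi')
  obtain ⟨j, h1, h2, h3, h4, h5, h6⟩ := (d1.and (d2.and (d3.and (d4.and (c5.and d6))))).exists
  have hm : ∀ i, i % n ∈ range n := fun i => Finset.mem_range.2 (Nat.mod_lt _ hn)
  refine ⟨j, fun i => w i j, ⟨hn, fun i => ?_, fun i => ?_, fun i => ?_, fun i => ?_, fun i => ?_,
    h5⟩, fun i i' h0 => ?_⟩
  · have := h1 _ (hm i)
    rwa [hwmod] at this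
  · have := h2 _ (hm i)
    rwa [hwmod] at this
  · have := h3 _ (hm i)
    rwa [hwmod, hwmod'] at this
  · simp only [hw, Nat.add_mod_right]
  · have := h4 _ (hm i)
    rwa [hwmod, hwmod'] at this
  · refine h6 _ (hm i) _ (hm i') ?_
    rw [hwmod, hwmod]
    exact h0

end Pool.Agent.helper56.P3
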